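import Mathlib

/-!
# The `F_2` Khovanov cube of a PD code (core)

A code is a list `P` of pairs (arcs without crossings) and a list `xs` of crossings.
Everything is written by multiplication operators on `Lam = F_2[x_0, x_1, ...]`
modulo the ideals `Idl`.
-/

namespace Pool.H78.Kh

open MvPolynomial

/-- the polynomial ring over `F_2` with one variable for each label -/
abbrev Lam := MvPolynomial ℕ (ZMod 2)

/-- a crossing: the four labels around it, counterclockwise, starting at an end of the under-strand -/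
structure Quad where
  a : ℕ
  b : ℕ
  c : ℕ
  d : ℕ
deriving DecidableEq

/-- the two arcs of a smoothing: `false` = `A`-smoothing, `true` = `B`-smoothing -/
def arcs (β : Bool) (x : Quad) : List (ℕ × ℕ) :=
  match β with
  | false => [(x.a, x.b), (x.c, x.d)]
  | true => [(x.a, x.d), (x.b, x.c)]

/-- connectivity of labels through a list of pairs -/
def Conn (P : List (ℕ × ℕ)) : ℕ → ℕ → Prop :=
  Relation.EqvGen (fun u v => (u, v) ∈ P)

theorem Conn.refl (P : List (ℕ × ℕ)) (u : ℕ) : Conn P u u := Relation.EqvGen.refl _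

theorem Conn.symm {P : List (ℕ × ℕ)} {u v : ℕ} (h : Conn P u v) : Conn P v u :=
  Relation.EqvGen.symm _ _ h

theorem Conn.trans {P : List (ℕ × ℕ)} {u v w : ℕ} (h : Conn P u v) (h' : Conn P v w) :
    Conn P u w := Relation.EqvGen.trans _ _ _ h h'

theorem Conn.of_mem {P : List (ℕ × ℕ)} {u v : ℕ} (h : (u, v) ∈ P) : Conn P u v :=
  Relation.EqvGen.rel _ _ h

/-- if all pairs of `P` are connected in `Q`, then `Conn P` is contained in `Conn Q` -/
theorem Conn.of_pairs {P Q : List (ℕ × ℕ)} (h : ∀ u v, (u, v) ∈ P → Conn Q u v) {u v : ℕ}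
    (huv : Conn P u v) : Conn Q u v := by
  induction huv with
  | rel x y hxy => exact h x y hxy
  | refl x => exact Conn.refl _ _
  | symm x y _ ih => exact ih.symm
  | trans x y z _ _ ih1 ih2 => exact ih1.trans ih2

theorem Conn.mono {P Q : List (ℕ × ℕ)} (h : P ⊆ Q) {u v : ℕ} (huv : Conn P u v) : Conn Q u v :=
  Conn.of_pairs (fun _ _ hm => Conn.of_mem (h hm)) huv

/-- the join formula -/
theorem conn_cons (P : List (ℕ × ℕ)) (a c u v : ℕ) :
    Conn ((a, c) :: P) u v ↔
      Conn P u v ∨ (Conn P u a ∧ Conn P c v) ∨ (Conn P u c ∧ Conn P a v) := by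
  constructor
  · intro h
    induction h with
    | rel x y hxy =>
      rcases List.mem_cons.1 hxy with h | h
      · obtain ⟨rfl, rfl⟩ := Prod.mk.inj h
        exact Or.inr (Or.inl ⟨Conn.refl _ _, Conn.refl _ _⟩)
      · exact Or.inl (Conn.of_mem h)
    | refl x => exact Or.inl (Conn.refl _ _)
    | symm x y _ ih =>
      rcases ih with h | ⟨h1, h2⟩ | ⟨h1, h2⟩
      · exact Or.inl h.symm
      · exact Or.inr (Or.inr ⟨h2.symm, h1.symm⟩)
      · exact Or.inr (Or.inl ⟨h2.symm, h1.symm⟩)
    | trans x y z _ _ ih1 ih2 =>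
      rcases ih1 with h | ⟨h1, h2⟩ | ⟨h1, h2⟩ <;> rcases ih2 with k | ⟨k1, k2⟩ | ⟨k1, k2⟩
      · exact Or.inl (h.trans k)
      · exact Or.inr (Or.inl ⟨h.trans k1, k2⟩)
      · exact Or.inr (Or.inr ⟨h.trans k1, k2⟩)
      · exact Or.inr (Or.inl ⟨h1, h2.trans k⟩)
      · exact Or.inr (Or.inl ⟨h1, k2⟩)
      · exact Or.inl (h1.trans k2)
      · exact Or.inr (Or.inr ⟨h1, h2.trans k⟩)
      · exact Or.inl (h1.trans k2)
      · exact Or.inr (Or.inr ⟨h1, k2⟩)
  · have hs : P ⊆ (a, c) :: P := fun x hx => List.mem_cons_of_mem _ hx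
    have hac : Conn ((a, c) :: P) a c := Conn.of_mem (by simp)
    rintro (h | ⟨h1, h2⟩ | ⟨h1, h2⟩)
    · exact h.mono hs
    · exact ((h1.mono hs).trans hac).trans (h2.mono hs)
    · exact ((h1.mono hs).trans hac.symm).trans (h2.mono hs)

/-! ### The ideals -/

/-- label `u` occurs in the list of pairs -/
def Used (P : List (ℕ × ℕ)) (u : ℕ) : Prop := ∃ p ∈ P, p.1 = u ∨ p.2 = u

/-- the ideal of a list of pairs: `x_u^2 = 0`, `x_u = x_v` for pairs, unused variables are `0` -/
noncomputable def Idl (P : List (ℕ × ℕ)) : Ideal Lam :=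
  Ideal.span ({f | ∃ u, f = X u ^ 2} ∪ {f | ∃ u v, (u, v) ∈ P ∧ f = X u + X v} ∪
    {f | ∃ u, ¬ Used P u ∧ f = X u})

theorem sq_mem (P : List (ℕ × ℕ)) (u : ℕ) : (X u : Lam) ^ 2 ∈ Idl P :=
  Ideal.subset_span (Or.inl (Or.inl ⟨u, rfl⟩))

theorem unused_mem {P : List (ℕ × ℕ)} {u : ℕ} (h : ¬ Used P u) : (X u : Lam) ∈ Idl P :=
  Ideal.subset_span (Or.inr ⟨u, h, rfl⟩)

theorem two_eq_zero' (z : Lam) : z + z = 0 := CharTwo.add_self_eq_zero z

theorem conn_mem {P : List (ℕ × ℕ)} {u v : ℕ} (h : Conn P u v) : (X u + X v : Lam) ∈ Idl P := by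
  induction h with
  | rel x y hxy => exact Ideal.subset_span (Or.inl (Or.inr ⟨x, y, hxy, rfl⟩))
  | refl x => rw [two_eq_zero']; exact Ideal.zero_mem _
  | symm x y _ ih => rwa [add_comm]
  | trans x y z _ _ ih1 ih2 =>
    have := Ideal.add_mem _ ih1 ih2
    have e : (X x + X z : Lam) = (X x + X y) + (X y + X z) := by
      have := two_eq_zero' (X y)
      linear_combination - this
    rwa [e]

/-- criterion for inclusion of ideals -/
theorem Idl_le {P : List (ℕ × ℕ)} {I : Ideal Lam} (h1 : ∀ u, (X u : Lam) ^ 2 ∈ I)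
    (h2 : ∀ u v, (u, v) ∈ P → (X u + X v : Lam) ∈ I) (h3 : ∀ u, ¬ Used P u → (X u : Lam) ∈ I) :
    Idl P ≤ I := by
  refine Ideal.span_le.2 ?_
  rintro f ((⟨u, rfl⟩ | ⟨u, v, h, rfl⟩) | ⟨u, h, rfl⟩)
  · exact h1 u
  · exact h2 u v h
  · exact h3 u h

theorem Idl_mono' {P Q : List (ℕ × ℕ)} (h : ∀ u v, (u, v) ∈ P → Conn Q u v)
    (hu : ∀ u, Used Q u → Used P u) : Idl P ≤ Idl Q :=
  Idl_le (fun u => sq_mem Q u) (fun u v huv => conn_mem (h u v huv))
    (fun u hn => unused_mem (fun hq => hn (hu u hq)))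

theorem Idl_congr {P Q : List (ℕ × ℕ)} (h : ∀ p, p ∈ P ↔ p ∈ Q) : Idl P = Idl Q := by
  have hu : ∀ u, Used P u ↔ Used Q u := fun u => by simp [Used, h]
  exact le_antisymm (Idl_mono' (fun u v huv => Conn.of_mem ((h _).1 huv)) (fun u => (hu u).2))
    (Idl_mono' (fun u v huv => Conn.of_mem ((h _).2 huv)) (fun u => (hu u).1))

theorem Conn_congr {P Q : List (ℕ × ℕ)} (h : ∀ p, p ∈ P ↔ p ∈ Q) (u v : ℕ) :
    Conn P u v ↔ Conn Q u v :=
  ⟨Conn.mono (fun p hp => (h p).1 hp), Conn.mono (fun p hp => (h p).2 hp)⟩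

/-! ### parity and the cube axiom -/

/-- number of occurrences of `u` in a list of pairs -/
def cnt (u : ℕ) : List (ℕ × ℕ) → ℕ
  | [] => 0
  | p :: P => (if p.1 = u then 1 else 0) + (if p.2 = u then 1 else 0) + cnt u P

@[simp] theorem cnt_nil (u : ℕ) : cnt u [] = 0 := rfl
@[simp] theorem cnt_cons (u : ℕ) (p : ℕ × ℕ) (P : List (ℕ × ℕ)) :
    cnt u (p :: P) = (if p.1 = u then 1 else 0) + (if p.2 = u then 1 else 0) + cnt u P := rfl

theorem cnt_append (u : ℕ) (P Q : List (ℕ × ℕ)) : cnt u (P ++ Q) = cnt u P + cnt u Q := by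
  induction P with
  | nil => simp
  | cons p P ih => simp [ih]; ring

theorem cnt_perm (u : ℕ) {P Q : List (ℕ × ℕ)} (h : P.Perm Q) : cnt u P = cnt u Q := by
  induction h with
  | nil => rfl
  | cons x _ ih => simp [ih]
  | swap x y l => simp; ring
  | trans _ _ ih1 ih2 => exact ih1.trans ih2


/-- the ends in `T` can be joined in pairs by `Conn Q` -/
inductive Paired (Q : List (ℕ × ℕ)) : Multiset ℕ → Prop
  | nil : Paired Q 0
  | cons (x y : ℕ) (T : Multiset ℕ) : Conn Q x y → Paired Q T → Paired Q (x ::ₘ y ::ₘ T)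

theorem Paired.pick {Q : List (ℕ × ℕ)} {S : Multiset ℕ} (h : Paired Q S) :
    ∀ p T, S = p ::ₘ T → ∃ r T', T = r ::ₘ T' ∧ Conn Q p r ∧ Paired Q T' := by
  induction h with
  | nil => intro p T h; exact absurd h.symm (Multiset.cons_ne_zero)
  | cons x y T0 hxy h0 ih =>
    intro p T h
    by_cases hx : x = p
    · subst hx
      exact ⟨y, T0, ((Multiset.cons_inj_right _).1 h).symm, hxy, h0⟩
    by_cases hy : y = p
    · subst hy
      rw [Multiset.cons_swap] at h
      exact ⟨x, T0, ((Multiset.cons_inj_right _).1 h).symm, hxy.symm, h0⟩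
    have hp : p ∈ T0 := by
      have : p ∈ x ::ₘ y ::ₘ T0 := by rw [h]; exact Multiset.mem_cons_self _ _
      rcases Multiset.mem_cons.1 this with h' | h'
      · exact absurd h'.symm hx
      · rcases Multiset.mem_cons.1 h' with h'' | h''
        · exact absurd h''.symm hy
        · exact h''
    obtain ⟨T1, rfl⟩ := Multiset.exists_cons_of_mem hp
    obtain ⟨r, T', hT1, hpr, hT'⟩ := ih p T1 rfl
    subst hT1
    refine ⟨r, x ::ₘ y ::ₘ T', ?_, hpr, Paired.cons _ _ _ hxy hT'⟩
    have h1 : x ::ₘ y ::ₘ p ::ₘ r ::ₘ T' = p ::ₘ r ::ₘ x ::ₘ y ::ₘ T' := by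
      rw [Multiset.cons_swap y p, Multiset.cons_swap x p, Multiset.cons_swap y r,
        Multiset.cons_swap x r]
    rw [h1] at h
    exact ((Multiset.cons_inj_right _).1 h).symm

theorem Paired.mono {Q Q' : List (ℕ × ℕ)} (hQ : ∀ u v, Conn Q u v → Conn Q' u v)
    {S : Multiset ℕ} (h : Paired Q S) : Paired Q' S := by
  induction h with
  | nil => exact Paired.nil
  | cons x y T hxy _ ih => exact Paired.cons _ _ _ (hQ _ _ hxy) ih

theorem paired_nil_of_even (n : ℕ) : ∀ T : Multiset ℕ, T.card = n → (∀ u, Even (T.count u)) →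
    Paired [] T := by
  induction n using Nat.strong_induction_on with
  | _ n ih =>
    intro T hn hT
    rcases Multiset.empty_or_exists_mem T with rfl | ⟨t, ht⟩
    · exact Paired.nil
    · obtain ⟨T1, rfl⟩ := Multiset.exists_cons_of_mem ht
      have h1 := hT t
      rw [Multiset.count_cons_self] at h1
      have h2 : t ∈ T1 := by
        by_contra h
        rw [Multiset.count_eq_zero_of_notMem h] at h1
        simp at h1
      obtain ⟨T2, rfl⟩ := Multiset.exists_cons_of_mem h2
      refine Paired.cons _ _ _ (Conn.refl _ _) (ih T2.card ?_ T2 rfl ?_)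
      · simp at hn; omega
      · intro u
        have := hT u
        by_cases hu : u = t
        · subst hu
          rw [Multiset.count_cons_self, Multiset.count_cons_self] at this
          rcases this with ⟨k, hk⟩
          exact ⟨k - 1, by omega⟩
        · rwa [Multiset.count_cons_of_ne hu, Multiset.count_cons_of_ne hu] at this

/-- handshake lemma: the odd ends of a list of pairs can be joined in pairs -/
theorem paired_of_even : ∀ (Q : List (ℕ × ℕ)) (T : Multiset ℕ),
    (∀ u, Even (cnt u Q + T.count u)) → Paired Q T := by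
  intro Q
  induction Q with
  | nil => intro T h; exact paired_nil_of_even _ T rfl (by simpa using h)
  | cons e Q ih =>
    obtain ⟨p, q⟩ := e
    intro T h
    have h1 : Paired Q (p ::ₘ q ::ₘ T) := by
      apply ih
      intro u
      have := h u
      rw [Multiset.count_cons, Multiset.count_cons]
      rw [cnt_cons] at this
      simp only [eq_comm (a := u)]
      convert this using 1
      ring
    have hm : ∀ u v, Conn Q u v → Conn ((p, q) :: Q) u v := fun u v =>
      Conn.mono (List.subset_cons_self _ _)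
    have hpq : Conn ((p, q) :: Q) p q := Conn.of_mem (by simp)
    obtain ⟨r, T1, hr, hpr, h2⟩ := h1.pick p _ rfl
    by_cases hrq : r = q
    · subst hrq
      have := (Multiset.cons_inj_right _).1 hr
      subst this
      exact h2.mono hm
    · have hq : q ∈ T1 := by
        have : q ∈ r ::ₘ T1 := by rw [← hr]; exact Multiset.mem_cons_self _ _
        rcases Multiset.mem_cons.1 this with h' | h'
        · exact absurd h'.symm hrq
        · exact h'
      obtain ⟨T2, rfl⟩ := Multiset.exists_cons_of_mem hq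
      rw [Multiset.cons_swap] at hr
      have hT := (Multiset.cons_inj_right _).1 hr
      obtain ⟨r', T3, hr', hqr', h3⟩ := h2.pick q _ rfl
      subst hr'
      subst hT
      refine Paired.cons _ _ _ ?_ (h3.mono hm)
      exact ((hm _ _ hpr.symm).trans hpq).trans (hm _ _ hqr')

theorem paired_two {Q : List (ℕ × ℕ)} {x y : ℕ} (h : Paired Q {x, y}) : Conn Q x y := by
  obtain ⟨r, T', h1, h2, _⟩ := h.pick x {y} rfl
  have h3 : y = r := by
    have : y ∈ r ::ₘ T' := by rw [← h1]; simp
    have hc : T' = 0 := by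
      have := congrArg Multiset.card h1
      simp at this
      exact this
    subst hc
    simpa using this
  subst h3
  exact h2

theorem paired_four {Q : List (ℕ × ℕ)} {a b c d : ℕ} (h : Paired Q {a, b, c, d}) :
    (Conn Q a b ∧ Conn Q c d) ∨ (Conn Q a d ∧ Conn Q b c) ∨ (Conn Q a c ∧ Conn Q b d) := by
  obtain ⟨r, T', h1, h2, h3⟩ := h.pick a {b, c, d} rfl
  have hr : r ∈ ({b, c, d} : Multiset ℕ) := by rw [h1]; exact Multiset.mem_cons_self _ _
  have hr' : r = b ∨ r = c ∨ r = d := by simpa using hr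
  rcases hr' with rfl | rfl | rfl
  · have : ({c, d} : Multiset ℕ) = T' := (Multiset.cons_inj_right _).1 h1
    subst this
    exact Or.inl ⟨h2, paired_two h3⟩
  · have : ({b, d} : Multiset ℕ) = T' := by
      apply (Multiset.cons_inj_right r).1
      rw [← h1]
      exact Multiset.cons_swap _ _ _
    subst this
    exact Or.inr (Or.inr ⟨h2, paired_two h3⟩)
  · have : ({b, c} : Multiset ℕ) = T' := by
      apply (Multiset.cons_inj_right r).1
      rw [← h1]
      change r ::ₘ b ::ₘ c ::ₘ 0 = b ::ₘ c ::ₘ r ::ₘ 0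
      rw [Multiset.cons_swap r b, Multiset.cons_swap r c]
    subst this
    exact Or.inr (Or.inl ⟨h2, paired_two h3⟩)

end Pool.H78.Kh
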