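import Mathlib

/-!
# Complexes in characteristic two, homotopy equivalences and cones
-/

namespace Pool.H78.Kh

/-- a complex of characteristic two: `G i` is the group of chains of degree `i` -/
structure Cx where
  M : Type
  [grp : AddCommGroup M]
  two : ∀ x : M, x + x = 0
  G : ℤ → AddSubgroup M
  d : M →+ M
  d_G : ∀ i x, x ∈ G i → d x ∈ G (i + 1)
  d_d : ∀ i x, x ∈ G i → d (d x) = 0

attribute [instance] Cx.grp

/-- vanishing of the cohomology in degree `i` -/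
def Cx.Van (K : Cx) (i : ℤ) : Prop :=
  ∀ x ∈ K.G i, K.d x = 0 → ∃ y ∈ K.G (i - 1), K.d y = x

theorem Cx.cast {K : Cx} {i j : ℤ} (h : i = j) {x : K.M} (hx : x ∈ K.G i) : x ∈ K.G j := h ▸ hx

/-- `K'` deformation retracts to `K` (degree shift `k`) -/
structure HEquiv (K K' : Cx) (k : ℤ) where
  φ : K.M →+ K'.M
  ψ : K'.M →+ K.M
  h : K'.M →+ K'.M
  φ_G : ∀ i x, x ∈ K.G i → φ x ∈ K'.G (i + k)
  ψ_G : ∀ i x, x ∈ K'.G i → ψ x ∈ K.G (i - k)
  h_G : ∀ i x, x ∈ K'.G i → h x ∈ K'.G (i - 1)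
  φ_d : ∀ i x, x ∈ K.G i → φ (K.d x) = K'.d (φ x)
  ψ_d : ∀ i x, x ∈ K'.G i → ψ (K'.d x) = K.d (ψ x)
  ψφ : ∀ i x, x ∈ K.G i → ψ (φ x) = x
  φψ : ∀ i x, x ∈ K'.G i → x + φ (ψ x) = K'.d (h x) + h (K'.d x)

theorem HEquiv.van {K K' : Cx} {k : ℤ} (H : HEquiv K K' k) (i : ℤ) :
    K.Van i ↔ K'.Van (i + k) := by
  constructor
  · intro hv x hx hdx
    have h1 := H.ψ_G _ _ hx
    rw [add_sub_cancel_right] at h1
    obtain ⟨y, hy, hdy⟩ := hv (H.ψ x) h1 (by rw [← H.ψ_d _ x hx, hdx, map_zero])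
    refine ⟨H.φ y + H.h x, AddSubgroup.add_mem _ ?_ (H.h_G _ _ hx), ?_⟩
    · exact Cx.cast (by ring) (H.φ_G _ _ hy)
    · have h2 := H.φψ _ x hx
      rw [hdx, map_zero, add_zero] at h2
      rw [map_add, ← H.φ_d _ y hy, hdy, ← h2, add_comm x, ← add_assoc, K'.two, zero_add]
  · intro hv x hx hdx
    obtain ⟨y, hy, hdy⟩ := hv (H.φ x) (H.φ_G _ _ hx) (by rw [← H.φ_d _ x hx, hdx, map_zero])
    refine ⟨H.ψ y, Cx.cast (by ring) (H.ψ_G _ _ hy), ?_⟩
    rw [← H.ψ_d _ y hy, hdy, H.ψφ _ x hx]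

/-- isomorphisms -/
structure IsoMap (K K' : Cx) (k : ℤ) where
  f : K.M →+ K'.M
  f_G : ∀ i x, x ∈ K.G i → f x ∈ K'.G (i + k)
  f_d : ∀ i x, x ∈ K.G i → f (K.d x) = K'.d (f x)
  inj : ∀ i x, x ∈ K.G i → f x = 0 → x = 0
  surj : ∀ i y, y ∈ K'.G i → ∃ x ∈ K.G (i - k), f x = y

theorem IsoMap.van {K K' : Cx} {k : ℤ} (H : IsoMap K K' k) (i : ℤ) :
    K.Van i ↔ K'.Van (i + k) := by
  constructor
  · intro hv y hy hdy
    obtain ⟨x, hx, rfl⟩ := H.surj _ y hy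
    rw [add_sub_cancel_right] at hx
    obtain ⟨u, hu, hdu⟩ := hv x hx (H.inj _ _ (K.d_G _ _ hx) (by rw [H.f_d _ _ hx, hdy]))
    exact ⟨H.f u, Cx.cast (by ring) (H.f_G _ _ hu), by rw [← H.f_d _ _ hu, hdu]⟩
  · intro hv x hx hdx
    obtain ⟨v, hv', hdv⟩ := hv (H.f x) (H.f_G _ _ hx) (by rw [← H.f_d _ _ hx, hdx, map_zero])
    obtain ⟨u, hu, rfl⟩ := H.surj _ v hv'
    have hu' : u ∈ K.G (i - 1) := Cx.cast (by ring) hu
    refine ⟨u, hu', ?_⟩
    rw [← H.f_d _ _ hu', ← sub_eq_zero, ← map_sub] at hdv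
    have h1 : K.d u - x ∈ K.G i :=
      AddSubgroup.sub_mem _ (Cx.cast (by ring) (K.d_G _ _ hu')) hx
    exact sub_eq_zero.1 (H.inj _ _ h1 hdv)

/-- chain maps of degree `k` -/
structure ChMap (K K' : Cx) (k : ℤ) where
  e : K.M →+ K'.M
  e_G : ∀ i x, x ∈ K.G i → e x ∈ K'.G (i + k)
  e_d : ∀ i x, x ∈ K.G i → e (K.d x) = K'.d (e x)

/-- the cone of a chain map -/
def cone {K K' : Cx} {k : ℤ} (E : ChMap K K' k) : Cx where
  M := K.M × K'.M
  two := fun x => Prod.ext (K.two _) (K'.two _)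
  G := fun i => (K.G (i - k)).prod (K'.G (i - 1))
  d := {
    toFun := fun x => (K.d x.1, E.e x.1 + K'.d x.2)
    map_zero' := by simp
    map_add' := fun x y => by
      ext
      · simp
      · simp only [Prod.fst_add, Prod.snd_add, map_add]; abel }
  d_G := fun i x hx => by
    refine ⟨Cx.cast (by ring) (K.d_G _ _ hx.1), AddSubgroup.add_mem _ ?_ ?_⟩
    · exact Cx.cast (by ring) (E.e_G _ _ hx.1)
    · exact Cx.cast (by ring) (K'.d_G _ _ hx.2)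
  d_d := fun i x hx => by
    have h1 := K.d_d _ _ hx.1
    have h2 := K'.d_d _ _ hx.2
    refine Prod.ext h1 ?_
    show E.e (K.d x.1) + K'.d (E.e x.1 + K'.d x.2) = 0
    rw [map_add, h2, add_zero, E.e_d _ _ hx.1, K'.two]

/-- composition with a retraction on the target -/
def ChMap.compR {W A N : Cx} {k l : ℤ} (E : ChMap W A l) (H : HEquiv N A k) :
    ChMap W N (l - k) where
  e := H.ψ.comp E.e
  e_G := fun i x hx => Cx.cast (by ring) (H.ψ_G _ _ (E.e_G _ _ hx))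
  e_d := fun i x hx => by
    show H.ψ (E.e (W.d x)) = N.d (H.ψ (E.e x))
    rw [E.e_d _ _ hx, H.ψ_d _ _ (E.e_G _ _ hx)]

/-- replacing the target of a cone by a homotopy equivalent complex -/
def coneR {W A N : Cx} {k l : ℤ} (E : ChMap W A l) (H : HEquiv N A k)
    (hψ : ∀ i x, x ∈ A.G i → H.ψ (H.h x) = 0) : HEquiv (cone (E.compR H)) (cone E) k where
  φ := {
    toFun := fun x => (x.1, H.φ x.2 + H.h (E.e x.1))
    map_zero' := Prod.ext rfl (by
      show H.φ 0 + H.h (E.e 0) = 0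
      rw [map_zero, map_zero, map_zero, add_zero])
    map_add' := fun x y => Prod.ext rfl (by
      show H.φ (x.2 + y.2) + H.h (E.e (x.1 + y.1)) =
        H.φ x.2 + H.h (E.e x.1) + (H.φ y.2 + H.h (E.e y.1))
      rw [map_add, map_add, map_add]; abel) }
  ψ := {
    toFun := fun x => (x.1, H.ψ x.2)
    map_zero' := Prod.ext rfl (map_zero H.ψ)
    map_add' := fun x y => Prod.ext rfl (map_add H.ψ _ _) }
  h := {
    toFun := fun x => (0, H.h x.2)
    map_zero' := Prod.ext rfl (map_zero H.h)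
    map_add' := fun x y => Prod.ext (add_zero (0 : W.M)).symm (map_add H.h _ _) }
  φ_G := fun i x hx => by
    refine ⟨Cx.cast (by ring) hx.1, AddSubgroup.add_mem _ ?_ ?_⟩
    · exact Cx.cast (by ring) (H.φ_G _ _ hx.2)
    · exact Cx.cast (by ring) (H.h_G _ _ (E.e_G _ _ hx.1))
  ψ_G := fun i x hx => by
    refine ⟨Cx.cast (by ring) hx.1, Cx.cast (by ring) (H.ψ_G _ _ hx.2)⟩
  h_G := fun i x hx => ⟨AddSubgroup.zero_mem _, H.h_G _ _ hx.2⟩
  φ_d := fun i x hx => by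
    refine Prod.ext rfl ?_
    show H.φ (H.ψ (E.e x.1) + N.d x.2) + H.h (E.e (W.d x.1)) =
      E.e x.1 + A.d (H.φ x.2 + H.h (E.e x.1))
    have h1 := H.φψ _ _ (E.e_G _ _ hx.1)
    rw [map_add, map_add, H.φ_d _ _ hx.2, E.e_d _ _ hx.1]
    have h2 : H.φ (H.ψ (E.e x.1)) = E.e x.1 + (A.d (H.h (E.e x.1)) + H.h (A.d (E.e x.1))) := by
      rw [← h1, ← add_assoc, A.two, zero_add]
    rw [h2]
    have : ∀ a b c w : A.M, c + c = 0 → a + (b + c) + w + c = a + (w + b) := by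
      intro a b c w hc
      have : a + (b + c) + w + c = a + (w + b) + (c + c) := by abel
      rw [this, hc, add_zero]
    exact this _ _ _ _ (A.two _)
  ψ_d := fun i x hx => by
    refine Prod.ext rfl ?_
    show H.ψ (E.e x.1 + A.d x.2) = H.ψ (E.e x.1) + N.d (H.ψ x.2)
    rw [map_add, H.ψ_d _ _ hx.2]
  ψφ := fun i x hx => by
    refine Prod.ext rfl ?_
    show H.ψ (H.φ x.2 + H.h (E.e x.1)) = x.2
    rw [map_add, H.ψφ _ _ hx.2, hψ _ _ (E.e_G _ _ hx.1), add_zero]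
  φψ := fun i x hx => by
    refine Prod.ext ?_ ?_
    · show x.1 + x.1 = W.d 0 + 0
      rw [W.two, map_zero, add_zero]
    · show x.2 + (H.φ (H.ψ x.2) + H.h (E.e x.1)) =
        (E.e 0 + A.d (H.h x.2)) + H.h (E.e x.1 + A.d x.2)
      rw [← add_assoc, H.φψ _ _ hx.2, map_zero, zero_add, map_add]
      abel

/-- isomorphism of cones -/
def IsoMap.cone {W W' N N' : Cx} {k l : ℤ} (E : ChMap W N l) (E' : ChMap W' N' l)
    (α : IsoMap W' W k) (β : IsoMap N' N k)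
    (hαβ : ∀ i x, x ∈ W'.G i → β.f (E'.e x) = E.e (α.f x)) :
    IsoMap (Kh.cone E') (Kh.cone E) k where
  f := {
    toFun := fun x => (α.f x.1, β.f x.2)
    map_zero' := Prod.ext (map_zero _) (map_zero _)
    map_add' := fun x y => Prod.ext (map_add _ _ _) (map_add _ _ _) }
  f_G := fun i x hx =>
    ⟨Cx.cast (by ring) (α.f_G _ _ hx.1), Cx.cast (by ring) (β.f_G _ _ hx.2)⟩
  f_d := fun i x hx => by
    refine Prod.ext (α.f_d _ _ hx.1) ?_
    show β.f (E'.e x.1 + N'.d x.2) = E.e (α.f x.1) + N.d (β.f x.2)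
    rw [map_add, hαβ _ _ hx.1, β.f_d _ _ hx.2]
  inj := fun i x hx h => Prod.ext (α.inj _ _ hx.1 (congrArg Prod.fst h))
    (β.inj _ _ hx.2 (congrArg Prod.snd h))
  surj := fun i y hy => by
    obtain ⟨a, ha, ha'⟩ := α.surj _ _ hy.1
    obtain ⟨b, hb, hb'⟩ := β.surj _ _ hy.2
    exact ⟨(a, b), ⟨Cx.cast (by ring) ha, Cx.cast (by ring) hb⟩, Prod.ext ha' hb'⟩

end Pool.H78.Kh
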