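import Pool.Agent.H78.Kh.Trace
namespace Pool.H78.Kh
open scoped Classical
set_option linter.unusedSectionVars false
set_option linter.unusedVariables false

variable {U : Type*} [AddCommGroup U] [Module F2 U] [Finite U]

/-- the edge condition of a cube of subspaces -/
def Edge (L L' : Submodule F2 U) (u : U) : Prop :=
  L ⊔ Submodule.span F2 {u} = L' ⊔ Submodule.span F2 {u} ∧ (u ∈ L ∨ u ∈ L')

/-- the edge map -/
noncomputable def toggle (L L' : Submodule F2 U) (u : U) (φ : U → F2) : U → F2 :=
  if u ∈ L then (if u ∈ L' then 0 else φ) else φ + T u φ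

theorem sup_span_eq {L : Submodule F2 U} {u : U} (h : u ∈ L) : L ⊔ Submodule.span F2 {u} = L :=
  sup_eq_left.2 ((Submodule.span_singleton_le_iff_mem _ _).2 h)

theorem Edge.merge {L L' : Submodule F2 U} {u : U} (h : Edge L L' u) (hu : u ∉ L) :
    L' = L ⊔ Submodule.span F2 {u} ∧ u ∈ L' := by
  have hu' := h.2.resolve_left hu
  exact ⟨by rw [h.1, sup_span_eq hu'], hu'⟩

theorem Edge.split {L L' : Submodule F2 U} {u : U} (h : Edge L L' u) (hu : u ∉ L') :
    L = L' ⊔ Submodule.span F2 {u} ∧ u ∈ L := by
  have hu' := h.2.resolve_right hu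
  exact ⟨by rw [← h.1, sup_span_eq hu'], hu'⟩

theorem Edge.same {L L' : Submodule F2 U} {u : U} (h : Edge L L' u) (hu : u ∈ L) (hu' : u ∈ L') :
    L = L' := by
  have := h.1
  rwa [sup_span_eq hu, sup_span_eq hu'] at this

theorem finrank_insert {L : Submodule F2 U} {u : U} (hu : u ∉ L) :
    Module.finrank F2 ↥(L ⊔ Submodule.span F2 {u}) = Module.finrank F2 L + 1 := by
  have : Module.Finite F2 U := Module.Finite.of_finite 
  have hu0 : u ≠ 0 := fun h => hu (h ▸ L.zero_mem)
  have h1 : L ⊓ Submodule.span F2 {u} = ⊥ := by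
    rw [← disjoint_iff, disjoint_comm]
    exact (Submodule.disjoint_span_singleton' hu0).2 hu |>.symm
  have h2 := Submodule.finrank_sup_add_finrank_inf_eq L (Submodule.span F2 {u})
  rw [h1, finrank_bot, finrank_span_singleton hu0] at h2
  omega

/-- the naturality of `f` along one edge of the closing -/
theorem edge_natural {LA LA' LB LB' W W' : Submodule F2 U} {u : U}
    (hA : Edge LA LA' u) (hB : Edge LB LB' u) (hW : Edge W W' u)
    (hAW : LA ≤ W) (hBW : LB ≤ W) (hAW' : LA' ≤ W') (hBW' : LB' ≤ W') (m : ℤ)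
    (hm : 2 * (Module.finrank F2 W : ℤ) - Module.finrank F2 LA - Module.finrank F2 LB ≤ m)
    (hm' : 2 * (Module.finrank F2 W' : ℤ) - Module.finrank F2 LA' - Module.finrank F2 LB' ≤ m)
    {ψ : U → F2} (hψ : Inv LB ψ) :
    toggle LA LA' u (if 2 * (Module.finrank F2 W : ℤ) - Module.finrank F2 LA -
        Module.finrank F2 LB = m then tr LB W ψ else 0) =
      (if 2 * (Module.finrank F2 W' : ℤ) - Module.finrank F2 LA' -
        Module.finrank F2 LB' = m then tr LB' W' (toggle LB LB' u ψ) else 0) := by
  have hT0 : ∀ v : U, T v (0 : U → F2) = 0 := fun v => rfl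
  by_cases hu : u ∈ W
  swap
  · -- `u ∉ W`
    have huA : u ∉ LA := fun h => hu (hAW h)
    have huB : u ∉ LB := fun h => hu (hBW h)
    obtain ⟨rfl, _⟩ := hA.merge huA
    obtain ⟨rfl, _⟩ := hB.merge huB
    obtain ⟨rfl, _⟩ := hW.merge hu
    rw [finrank_insert huA, finrank_insert huB, finrank_insert hu, toggle, if_neg huA, toggle,
      if_neg huB]
    have e : (2 * ((Module.finrank F2 W + 1 : ℕ) : ℤ) - ((Module.finrank F2 LA + 1 : ℕ) : ℤ) -
        ((Module.finrank F2 LB + 1 : ℕ) : ℤ) = m) ↔
        (2 * (Module.finrank F2 W : ℤ) - Module.finrank F2 LA - Module.finrank F2 LB = m) := by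
      push_cast; constructor <;> intro h <;> linarith
    rw [if_congr e rfl rfl]
    split_ifs with h
    · rw [tr_add_T_out hBW hu hψ]
    · rw [hT0, add_zero]
  by_cases hu' : u ∈ W'
  swap
  · -- `u ∈ W`, `u ∉ W'`
    have huA : u ∉ LA' := fun h => hu' (hAW' h)
    have huB : u ∉ LB' := fun h => hu' (hBW' h)
    obtain ⟨rfl, huA1⟩ := hA.split huA
    obtain ⟨rfl, huB1⟩ := hB.split huB
    obtain ⟨rfl, _⟩ := hW.split hu'
    rw [finrank_insert huA, finrank_insert huB, finrank_insert hu', toggle, if_pos huA1,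
      if_neg huA, toggle, if_pos huB1, if_neg huB]
    have e : (2 * ((Module.finrank F2 W' + 1 : ℕ) : ℤ) - ((Module.finrank F2 LA' + 1 : ℕ) : ℤ) -
        ((Module.finrank F2 LB' + 1 : ℕ) : ℤ) = m) ↔
        (2 * (Module.finrank F2 W' : ℤ) - Module.finrank F2 LA' - Module.finrank F2 LB' = m) := by
      push_cast; constructor <;> intro h <;> linarith
    rw [if_congr e rfl rfl]
    split_ifs with h
    · exact (tr_remove hBW' hu' hψ).symm
    · rfl
  · have hWW := hW.same hu hu'
    subst hWW
    -- left side: only a split on the `A` side contributes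
    have left : toggle LA LA' u (if 2 * (Module.finrank F2 W : ℤ) - Module.finrank F2 LA -
        Module.finrank F2 LB = m then tr LB W ψ else 0) =
        if u ∉ LA' ∧ 2 * (Module.finrank F2 W : ℤ) - Module.finrank F2 LA -
        Module.finrank F2 LB = m then tr LB W ψ else 0 := by
      by_cases hA1 : u ∈ LA
      · by_cases hA2 : u ∈ LA'
        · rw [toggle, if_pos hA1, if_pos hA2, if_neg (fun h => h.1 hA2)]
        · rw [toggle, if_pos hA1, if_neg hA2]
          simp [hA2]
      · have hA2 := (hA.merge hA1).2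
        rw [toggle, if_neg hA1, if_neg (show ¬ (u ∉ LA' ∧ _) from fun h => h.1 hA2)]
        split_ifs with h
        · exact add_T_eq_zero hu (tr_inv LB W ψ)
        · rw [hT0, add_zero]
    have right : (if 2 * (Module.finrank F2 W : ℤ) - Module.finrank F2 LA' -
        Module.finrank F2 LB' = m then tr LB' W (toggle LB LB' u ψ) else 0) =
        if u ∉ LB ∧ 2 * (Module.finrank F2 W : ℤ) - Module.finrank F2 LA' -
        Module.finrank F2 LB' = m then tr LB W ψ else 0 := by
      by_cases hB1 : u ∈ LB
      · rw [if_neg (fun h => h.1 hB1 : ¬ (u ∉ LB ∧ _))]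
        by_cases hB2 : u ∈ LB'
        · rw [toggle, if_pos hB1, if_pos hB2, tr_zero]; simp
        · rw [toggle, if_pos hB1, if_neg hB2]
          obtain ⟨rfl, _⟩ := hB.split hB2
          rw [tr_eq_zero hBW' hB2 hu hψ]; simp
      · obtain ⟨rfl, _⟩ := hB.merge hB1
        rw [toggle, if_neg hB1, tr_add_T hBW hB1 hu hψ]
        simp [hB1]
    rw [left, right]
    -- dimension bookkeeping
    have dA : (u ∉ LA' → Module.finrank F2 LA = Module.finrank F2 LA' + 1) ∧
        (u ∈ LA' → Module.finrank F2 LA ≤ Module.finrank F2 LA') := by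
      constructor
      · intro h
        obtain ⟨rfl, _⟩ := hA.split h
        exact finrank_insert h
      · intro h
        by_cases hA1 : u ∈ LA
        · rw [hA.same hA1 h]
        · obtain ⟨rfl, _⟩ := hA.merge hA1
          rw [finrank_insert hA1]; omega
    have dB : (u ∉ LB → Module.finrank F2 LB' = Module.finrank F2 LB + 1) ∧
        (u ∈ LB → Module.finrank F2 LB' ≤ Module.finrank F2 LB) := by
      constructor
      · intro h
        obtain ⟨rfl, _⟩ := hB.merge h
        exact finrank_insert h
      · intro h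
        by_cases hB1 : u ∈ LB'
        · rw [hB.same h hB1]
        · obtain ⟨rfl, _⟩ := hB.split hB1
          rw [finrank_insert hB1]; omega
    by_cases h1 : u ∈ LA' <;> by_cases h2 : u ∈ LB
    · rw [if_neg (fun h => h.1 h1), if_neg (fun h => h.1 h2)]
    · have := dA.2 h1
      have := dB.1 h2
      rw [if_neg (fun h => h.1 h1), if_neg]
      rintro ⟨_, h⟩
      omega
    · have := dA.1 h1
      have := dB.2 h2
      rw [if_neg (fun h => h.1 h2 : ¬ (u ∉ LB ∧ _)), if_neg]
      rintro ⟨_, h⟩
      omega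
    · have := dA.1 h1
      have := dB.1 h2
      have e : (u ∉ LA' ∧ 2 * (Module.finrank F2 W : ℤ) - Module.finrank F2 LA -
        Module.finrank F2 LB = m) ↔ (u ∉ LB ∧ 2 * (Module.finrank F2 W : ℤ) -
        Module.finrank F2 LA' - Module.finrank F2 LB' = m) := by
        simp only [h1, h2, not_false_eq_true, true_and]
        omega
      rw [if_congr e rfl rfl]

end Pool.H78.Kh
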