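import Pool.Agent.H78.Kh.Edge
namespace Pool.H78.Kh
open scoped Classical
set_option linter.unusedSectionVars false
set_option linter.unusedVariables false

variable {U : Type*} [AddCommGroup U] [Module F2 U] [Finite U]
variable {X Y : Type*} [Fintype X] [Fintype Y] [DecidableEq X] [DecidableEq Y]

theorem toggle_inv {L L' : Submodule F2 U} {u : U} (h : Edge L L' u) {φ : U → F2} (hφ : Inv L φ) :
    Inv L' (toggle L L' u φ) := by
  unfold toggle
  by_cases h1 : u ∈ L
  · by_cases h2 : u ∈ L'
    · simp only [h1, h2, if_true]; exact Inv.zero _
    · simp only [h1, h2, if_true, if_false]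
      obtain ⟨rfl, _⟩ := h.split h2
      exact hφ.mono le_sup_left
  · simp only [h1, if_false]
    obtain ⟨rfl, _⟩ := h.merge h1
    rw [← tr_insert h1 hφ]
    exact tr_inv _ _ _

theorem toggle_add (L L' : Submodule F2 U) (u : U) (φ ψ : U → F2) :
    toggle L L' u (φ + ψ) = toggle L L' u φ + toggle L L' u ψ := by
  unfold toggle
  split_ifs
  · simp
  · rfl
  · show φ + ψ + T u (φ + ψ) = φ + T u φ + (ψ + T u ψ)
    have : T u (φ + ψ) = T u φ + T u ψ := rfl
    rw [this]; abel

theorem toggle_zero (L L' : Submodule F2 U) (u : U) : toggle L L' u (0 : U → F2) = 0 := by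
  unfold toggle
  split_ifs
  · rfl
  · rfl
  · show (0 : U → F2) + (0 : U → F2) = 0
    simp

/-- data for the lemma on the endomorphism `f` -/
structure FData (U X Y : Type*) [AddCommGroup U] [Module F2 U] [DecidableEq X] [DecidableEq Y] where
  L : (X → Bool) → (Y → Bool) → Submodule F2 U
  W : (Y → Bool) → Submodule F2 U
  u : X → U
  v : Y → U
  hX : ∀ σ τ x, σ x = true → Edge (L (Function.update σ x false) τ) (L σ τ) (u x)
  hY : ∀ σ τ y, τ y = true → Edge (L σ (Function.update τ y false)) (L σ τ) (v y)
  hW : ∀ τ y, τ y = true → Edge (W (Function.update τ y false)) (W τ) (v y)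
  hLW : ∀ σ τ, L σ τ ≤ W τ
  uW : ∀ x τ, u x ∈ W τ
  adA : ∀ x τ, u x ∉ L (fun _ => false) τ
  adB : ∀ x τ, u x ∉ L (fun _ => true) τ

namespace FData

variable (D : FData U X Y)

/-- chain groups -/
def IsChain (φ : (X → Bool) → (Y → Bool) → U → F2) : Prop := ∀ σ τ, Inv (D.L σ τ) (φ σ τ)

/-- the differential -/
noncomputable def d (φ : (X → Bool) → (Y → Bool) → U → F2) (σ : X → Bool) (τ : Y → Bool) : U → F2 :=
  (∑ x : X, if σ x = true then toggle (D.L (Function.update σ x false) τ) (D.L σ τ) (D.u x)
    (φ (Function.update σ x false) τ) else 0) +
  ∑ y : Y, if τ y = true then toggle (D.L σ (Function.update τ y false)) (D.L σ τ) (D.v y)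
    (φ σ (Function.update τ y false)) else 0

/-- the number of outer circles of the two extreme states -/
noncomputable def N (τ : Y → Bool) : ℤ :=
  2 * (Module.finrank F2 (D.W τ) : ℤ) - Module.finrank F2 (D.L (fun _ => false) τ) -
    Module.finrank F2 (D.L (fun _ => true) τ)

/-- the endomorphism `f` of degree `-#X` -/
noncomputable def f (m : ℤ) (φ : (X → Bool) → (Y → Bool) → U → F2) (σ : X → Bool) (τ : Y → Bool) :
    U → F2 :=
  if σ = (fun _ => false) then
    (if D.N τ = m then tr (D.L (fun _ => true) τ) (D.W τ) (φ (fun _ => true) τ) else 0)
  else 0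

theorem d_f_comm (m : ℤ) (hm : ∀ τ, D.N τ ≤ m) {φ : (X → Bool) → (Y → Bool) → U → F2}
    (hφ : D.IsChain φ) (hX : Nonempty X) : D.d (D.f m φ) = D.f m (D.d φ) := by
  funext σ τ
  have hAB : (fun _ : X => true) ≠ (fun _ => false) := by
    intro h
    obtain ⟨x⟩ := hX
    exact absurd (congrFun h x) (by simp)
  by_cases hσ : σ = (fun _ => false)
  · subst hσ
    have e1 : (∑ x : X, if (fun _ : X => false) x = true then
        toggle (D.L (Function.update (fun _ : X => false) x false) τ) (D.L (fun _ => false) τ) (D.u x)
        (D.f m φ (Function.update (fun _ : X => false) x false) τ) else 0) = 0 := by simp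
    unfold d
    rw [e1, zero_add]
    have e2 : ∀ (y : Y), (if τ y = true then toggle (D.L (fun _ => false) (Function.update τ y false))
        (D.L (fun _ => false) τ) (D.v y) (D.f m φ (fun _ => false) (Function.update τ y false))
        else 0) = (if τ y = true then (if D.N τ = m then tr (D.L (fun _ => true) τ) (D.W τ)
          (toggle (D.L (fun _ => true) (Function.update τ y false)) (D.L (fun _ => true) τ) (D.v y)
          (φ (fun _ => true) (Function.update τ y false))) else 0) else 0) := by
      intro y
      split_ifs with hy hN
      · have := edge_natural (D.hY (fun _ => false) τ y hy) (D.hY (fun _ => true) τ y hy)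
          (D.hW τ y hy) (D.hLW _ _) (D.hLW _ _) (D.hLW _ _) (D.hLW _ _) m (hm _) (hm _)
          (hφ (fun _ => true) (Function.update τ y false))
        unfold N at hN
        rw [if_pos hN] at this
        rw [← this]
        simp only [f, if_true]; rfl
      · have := edge_natural (D.hY (fun _ => false) τ y hy) (D.hY (fun _ => true) τ y hy)
          (D.hW τ y hy) (D.hLW _ _) (D.hLW _ _) (D.hLW _ _) (D.hLW _ _) m (hm _) (hm _)
          (hφ (fun _ => true) (Function.update τ y false))
        unfold N at hN
        rw [if_neg hN] at this
        rw [← this]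
        simp only [f, if_true]; rfl
      · rfl
    rw [Finset.sum_congr rfl (fun y _ => e2 y)]
    unfold f
    rw [if_pos rfl]
    split_ifs with hN
    · rw [tr_add]
      have e3 : tr (D.L (fun _ => true) τ) (D.W τ) (∑ x : X, if (fun _ : X => true) x = true then
          toggle (D.L (Function.update (fun _ => true) x false) τ) (D.L (fun _ => true) τ) (D.u x)
          (φ (Function.update (fun _ => true) x false) τ) else 0) = 0 := by
        have hs : ∀ s : Finset X, tr (D.L (fun _ => true) τ) (D.W τ) (∑ x ∈ s,
          if (fun _ : X => true) x = true then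
          toggle (D.L (Function.update (fun _ => true) x false) τ) (D.L (fun _ => true) τ) (D.u x)
          (φ (Function.update (fun _ => true) x false) τ) else 0) = 0 := by
          intro s
          induction s using Finset.induction_on with
          | empty => simp
          | insert x s hx ih =>
            rw [Finset.sum_insert hx, tr_add, ih, add_zero, if_pos rfl]
            have he := D.hX (fun _ => true) τ x rfl
            obtain ⟨h1, h2⟩ := he.split (D.adB x τ)
            rw [toggle, if_pos h2, if_neg (D.adB x τ)]
            refine tr_eq_zero (D.hLW _ _) (D.adB x τ) (D.uW x τ) ?_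
            rw [← h1]
            exact hφ _ _
        exact hs _
      rw [e3, zero_add]
      have hs : ∀ s : Finset Y, (∑ y ∈ s, if τ y = true then tr (D.L (fun _ => true) τ) (D.W τ)
          (toggle (D.L (fun _ => true) (Function.update τ y false)) (D.L (fun _ => true) τ) (D.v y)
          (φ (fun _ => true) (Function.update τ y false))) else 0) =
          tr (D.L (fun _ => true) τ) (D.W τ) (∑ y ∈ s, if τ y = true then
          toggle (D.L (fun _ => true) (Function.update τ y false)) (D.L (fun _ => true) τ) (D.v y)
          (φ (fun _ => true) (Function.update τ y false)) else 0) := by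
        intro s
        induction s using Finset.induction_on with
        | empty => simp
        | insert y s hy ih =>
          rw [Finset.sum_insert hy, Finset.sum_insert hy, tr_add, ih]
          congr 1
          split_ifs
          · rfl
          · simp
      exact hs _
    · simp
  · -- `σ ≠ allA`
    have e0 : D.f m (D.d φ) σ τ = 0 := by
      unfold f; rw [if_neg hσ]
    rw [e0]
    unfold d
    have e2 : (∑ y : Y, if τ y = true then toggle (D.L σ (Function.update τ y false)) (D.L σ τ)
        (D.v y) (D.f m φ σ (Function.update τ y false)) else 0) = 0 := by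
      apply Finset.sum_eq_zero
      intro y _
      have : D.f m φ σ (Function.update τ y false) = 0 := by
        unfold f; rw [if_neg hσ]
      rw [this, toggle_zero, ite_self]
    rw [e2, add_zero]
    apply Finset.sum_eq_zero
    intro x _
    split_ifs with hx
    · by_cases h1 : Function.update σ x false = (fun _ => false)
      · rw [h1]
        rw [toggle, if_neg (D.adA x τ)]
        unfold f
        rw [if_pos rfl]
        split_ifs with hN
        · exact add_T_eq_zero (D.uW x τ) (tr_inv _ _ _)
        · show (0 : U → F2) + (0 : U → F2) = 0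
          simp
      · have : D.f m φ (Function.update σ x false) τ = 0 := by
          unfold f; rw [if_neg h1]
        rw [this, toggle_zero]
    · rfl

end FData

end Pool.H78.Kh
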