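import Mathlib

/-!
# The filtration lemma

A complex with a finite filtration whose graded pieces have cohomology only in complementary degrees
`lo..hi`; a filtered chain map of degree `-c` with `c > hi - lo` kills the cohomology.
-/

namespace Pool.H78.Kh

/-- a bounded filtered complex `C` together with a filtered endomorphism of degree `-c` -/
structure FiltData (M : Type*) [AddCommGroup M] where
  C : AddSubgroup M
  d : M →+ M
  f : M →+ M
  deg : ℤ → AddSubgroup M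
  F : ℕ → AddSubgroup M
  c : ℤ
  n : ℕ
  lo : ℤ
  hi : ℤ
  F_anti : ∀ p, F (p + 1) ≤ F p
  F_zero : F 0 = ⊤
  F_last : ∀ z ∈ C, z ∈ F n → z = 0
  d_C : ∀ z ∈ C, d z ∈ C
  f_C : ∀ z ∈ C, f z ∈ C
  d_deg : ∀ i z, z ∈ C → z ∈ deg i → d z ∈ deg (i + 1)
  f_deg : ∀ i z, z ∈ C → z ∈ deg i → f z ∈ deg (i - c)
  f_F : ∀ p z, z ∈ C → z ∈ F p → f z ∈ F p
  d_f : ∀ i, ∀ z ∈ C, z ∈ deg i → d (f z) = f (d z)
  d_d : ∀ z ∈ C, d (d z) = 0
  van : ∀ (p : ℕ) (q : ℤ), (q < lo ∨ hi < q) → ∀ z ∈ C, z ∈ deg (p + q) → z ∈ F p →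
    d z ∈ F (p + 1) → ∃ y ∈ C, y ∈ deg (p + q - 1) ∧ z - d y ∈ F (p + 1)

namespace FiltData

variable {M : Type*} [AddCommGroup M] (D : FiltData M)

/-- push a cycle into deeper filtration as long as the graded pieces vanish -/
theorem push (i : ℤ) (p : ℕ) (k : ℕ)
    (hv : ∀ p' : ℕ, p ≤ p' → p' < p + k → (i - p' < D.lo ∨ D.hi < i - p')) {z : M} (hC : z ∈ D.C)
    (hz : z ∈ D.deg i) (hzF : z ∈ D.F p) (hdz : D.d z = 0) :
    ∃ y ∈ D.C, y ∈ D.deg (i - 1) ∧ z - D.d y ∈ D.F (p + k) := by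
  induction k generalizing p z with
  | zero => exact ⟨0, D.C.zero_mem, (D.deg _).zero_mem, by simpa using hzF⟩
  | succ k ih =>
    have h0 := hv p le_rfl (by omega)
    have hz' : z ∈ D.deg (p + (i - p)) := by
      rwa [add_sub_cancel]
    obtain ⟨y, hyC, hy1, hy3⟩ := D.van p (i - p) h0 z hC hz' hzF
      (by rw [hdz]; exact (D.F _).zero_mem)
    have hy1' : y ∈ D.deg (i - 1) := by rwa [add_sub_cancel] at hy1
    have hz1 : z - D.d y ∈ D.deg i := by
      refine (D.deg i).sub_mem hz ?_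
      have := D.d_deg _ _ hyC hy1'
      rwa [sub_add_cancel] at this
    have hd1 : D.d (z - D.d y) = 0 := by rw [map_sub, hdz, D.d_d _ hyC, sub_zero]
    obtain ⟨y', hyC', hy1'', hy2'⟩ := ih (p + 1) (fun p' h1 h2 => hv p' (by omega) (by omega))
      (D.C.sub_mem hC (D.d_C _ hyC)) hz1 hy3 hd1
    refine ⟨y + y', D.C.add_mem hyC hyC', (D.deg _).add_mem hy1' hy1'', ?_⟩
    rw [map_add, ← sub_sub]
    have : p + (k + 1) = p + 1 + k := by ring
    rw [this]
    exact hy2'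

theorem F_anti' (p k : ℕ) : D.F (p + k) ≤ D.F p := by
  induction k with
  | zero => exact le_rfl
  | succ k ih => exact (D.F_anti _).trans ih

/-- the filtration lemma -/
theorem f_kills (hc : D.hi - D.lo < D.c) (i : ℤ) {z : M} (hC : z ∈ D.C) (hz : z ∈ D.deg i)
    (hdz : D.d z = 0) : ∃ y ∈ D.C, y ∈ D.deg (i - D.c - 1) ∧ D.d y = D.f z := by
  -- first push `z` to filtration `P = max 0 (i - hi)`
  set P : ℕ := (i - D.hi).toNat with hP
  obtain ⟨y, hyC, hy1, hy2⟩ := D.push i 0 P (by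
    intro p' _ h2
    right
    rw [zero_add, hP] at h2
    omega) hC hz (by rw [D.F_zero]; trivial) hdz
  rw [zero_add] at hy2
  have hw1 : z - D.d y ∈ D.deg i := by
    refine (D.deg i).sub_mem hz ?_
    have := D.d_deg _ _ hyC hy1
    rwa [sub_add_cancel] at this
  have hwC : z - D.d y ∈ D.C := D.C.sub_mem hC (D.d_C _ hyC)
  have hw2 : D.d (D.f (z - D.d y)) = 0 := by
    rw [D.d_f _ _ hwC hw1, map_sub, hdz, D.d_d _ hyC, sub_zero, map_zero]
  obtain ⟨y', hyC', hyd', hy2'⟩ := D.push (i - D.c) P D.n (by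
    intro p' h1 _
    left
    rw [hP] at h1
    have : (i - D.hi) ≤ ((i - D.hi).toNat : ℤ) := Int.self_le_toNat _
    have h3 : ((i - D.hi).toNat : ℤ) ≤ (p' : ℤ) := by exact_mod_cast h1
    omega) (D.f_C _ hwC) (D.f_deg i _ hwC hw1) (D.f_F _ _ hwC hy2) hw2
  have h0 : D.f (z - D.d y) - D.d y' = 0 := by
    refine D.F_last _ (D.C.sub_mem (D.f_C _ hwC) (D.d_C _ hyC')) ?_
    rw [add_comm P] at hy2'
    exact D.F_anti' _ _ hy2'
  refine ⟨y' + D.f y, D.C.add_mem hyC' (D.f_C _ hyC), ?_, ?_⟩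
  · refine AddSubgroup.add_mem _ hyd' ?_
    have := D.f_deg _ _ hyC hy1
    have e : i - 1 - D.c = i - D.c - 1 := by ring
    rwa [e] at this
  · rw [map_add, D.d_f _ _ hyC hy1]
    rw [map_sub] at h0
    have := sub_eq_zero.1 h0
    rw [← this]
    abel

end FiltData

end Pool.H78.Kh
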