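import Pool.Agent.H78.Kh.Edge

/-!
# Cubes of subspaces and their `F_2` cube complexes
-/

namespace Pool.H78.Kh
open scoped Classical
set_option linter.unusedSectionVars false
set_option linter.unusedVariables false

variable {U : Type*} [AddCommGroup U] [Module F2 U] [Finite U]

theorem T_comm (u v : U) (φ : U → F2) : T u (T v φ) = T v (T u φ) := by
  funext w
  show φ (w + u + v) = φ (w + v + u)
  rw [add_right_comm]

theorem T_add_fun (u : U) (φ ψ : U → F2) : T u (φ + ψ) = T u φ + T u ψ := rfl

theorem T_zero_fun (u : U) : T u (0 : U → F2) = 0 := rfl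

theorem T_congr {L : Submodule F2 U} {φ : U → F2} (h : Inv L φ) {u v : U} (huv : u - v ∈ L) :
    T u φ = T v φ := by
  funext w
  show φ (w + u) = φ (w + v)
  apply h.congr
  have : w + u - (w + v) = u - v := by abel
  rwa [this]

theorem T_of_mem {L : Submodule F2 U} {φ : U → F2} (h : Inv L φ) {u : U} (hu : u ∈ L) :
    T u φ = φ := by
  funext w
  exact h u hu w

theorem add_self_fun (φ : U → F2) : φ + φ = 0 := by
  funext v
  exact CharTwo.add_self_eq_zero _

/-- the edge map in uniform form -/
theorem toggle_eq {L L' : Submodule F2 U} {u : U} (he : Edge L L' u) {φ : U → F2} (h : Inv L φ) :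
    toggle L L' u φ = if u ∉ L' then φ else φ + T u φ := by
  unfold toggle
  by_cases h1 : u ∈ L
  · by_cases h2 : u ∈ L'
    · simp only [h1, h2, if_true, not_true, if_false]
      rw [T_of_mem h h1, add_self_fun]
    · simp only [h1, h2, if_true, if_false, not_false_iff]
  · have h2 := (he.merge h1).2
    simp only [h1, h2, if_false, not_true]

theorem toggle_inv {L L' : Submodule F2 U} {u : U} (h : Edge L L' u) {φ : U → F2} (hφ : Inv L φ) :
    Inv L' (toggle L L' u φ) := by
  unfold toggle
  by_cases h1 : u ∈ L
  · by_cases h2 : u ∈ L'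
    · simp only [h1, h2, if_true]; exact Inv.zero _
    · simp only [h1, h2, if_true, if_false]
      obtain ⟨rfl, _⟩ := h.split h2
      exact hφ.mono le_sup_left
  · simp only [h1, if_false]
    obtain ⟨rfl, _⟩ := h.merge h1
    rw [← tr_insert h1 hφ]
    exact tr_inv _ _ _

theorem toggle_add (L L' : Submodule F2 U) (u : U) (φ ψ : U → F2) :
    toggle L L' u (φ + ψ) = toggle L L' u φ + toggle L L' u ψ := by
  unfold toggle
  split_ifs
  · simp
  · rfl
  · show φ + ψ + T u (φ + ψ) = φ + T u φ + (ψ + T u ψ)
    have : T u (φ + ψ) = T u φ + T u ψ := rfl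
    rw [this]; abel

theorem toggle_zero (L L' : Submodule F2 U) (u : U) : toggle L L' u (0 : U → F2) = 0 := by
  unfold toggle
  split_ifs
  · rfl
  · rfl
  · show (0 : U → F2) + (0 : U → F2) = 0
    simp

theorem toggle_sum {ι : Type*} (L L' : Submodule F2 U) (u : U) (s : Finset ι) (g : ι → U → F2) :
    toggle L L' u (∑ i ∈ s, g i) = ∑ i ∈ s, toggle L L' u (g i) := by
  induction s using Finset.induction_on with
  | empty => simp [toggle_zero]
  | insert i s hi ih => rw [Finset.sum_insert hi, Finset.sum_insert hi, toggle_add, ih]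

/-- one half of the case analysis for the commutation of two edge maps -/
theorem face_aux {L00 L10 L01 L11 : Submodule F2 U} {u v : U} (h1 : Edge L00 L10 u)
    (h2 : Edge L01 L11 u) (h3 : Edge L00 L01 v) (h4 : Edge L10 L11 v) {φ : U → F2}
    (hφ : Inv L00 φ) (hne : ¬ (u ∉ L10 ↔ u ∉ L11)) :
    toggle L10 L11 v (toggle L00 L10 u φ) = toggle L01 L11 u (toggle L00 L01 v φ) := by
  rw [toggle_eq h4 (toggle_inv h1 hφ), toggle_eq h2 (toggle_inv h3 hφ), toggle_eq h1 hφ,
    toggle_eq h3 hφ]
  by_cases hu : u ∈ L10
  · -- `u ∈ L10`, `u ∉ L11`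
    have hu' : u ∉ L11 := by
      intro h; apply hne; simp [hu, h]
    obtain ⟨e1, e2⟩ := h2.split hu'
    have hv10 : v ∈ L10 := by
      by_contra h
      obtain ⟨e, _⟩ := h4.merge h
      exact hu' (e ▸ Submodule.mem_sup_left hu)
    have hv11 : v ∉ L11 := by
      intro h
      exact hu' ((h4.same hv10 h) ▸ hu)
    obtain ⟨e3, _⟩ := h4.split hv11
    have huv : u - v ∈ L11 := by
      rcases mem_sup_span (e3 ▸ hu) with h | h
      · exact absurd h hu'
      · exact h
    have hv01 : v ∈ L01 := by
      rw [e1]
      have : v = -(u - v) + u := by abel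
      rw [this]
      exact Submodule.add_mem _ (Submodule.mem_sup_left (L11.neg_mem huv))
        (Submodule.mem_sup_right (Submodule.mem_span_singleton_self u))
    have key : u - v ∈ L00 := by
      by_cases hu0 : u ∈ L00
      · have hv0 : v ∈ L00 := by rw [h1.same hu0 hu]; exact hv10
        exact L00.sub_mem hu0 hv0
      · obtain ⟨e4, _⟩ := h1.merge hu0
        rcases mem_sup_span (e4 ▸ hv10) with h | h
        · exfalso
          have e5 := h3.same h hv01
          exact hu0 (e5 ▸ e2)
        · have := L00.neg_mem h
          rwa [neg_sub] at this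
    simp only [hu, hu', hv11, hv01, not_true, not_false_iff, if_true, if_false]
    rw [T_congr hφ key]
  · -- `u ∉ L10`, `u ∈ L11`
    have hu' : u ∈ L11 := by
      by_contra h
      apply hne; simp [hu, h]
    have hv10 : v ∉ L10 := by
      intro h
      by_cases h5 : v ∈ L11
      · exact hu (h4.same h h5 ▸ hu')
      · obtain ⟨e, _⟩ := h4.split h5
        exact hu (e ▸ Submodule.mem_sup_left hu')
    obtain ⟨e1, hv11⟩ := h4.merge hv10
    have huv : u - v ∈ L10 := by
      rcases mem_sup_span (e1 ▸ hu') with h | h
      · exact absurd h hu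
      · exact h
    obtain ⟨e2, hu0⟩ := h1.split hu
    have hv0 : v ∈ L00 := by
      have : v = u - (u - v) := by abel
      rw [this]
      exact L00.sub_mem hu0 (by rw [e2]; exact Submodule.mem_sup_left huv)
    simp only [hu, hu', hv11, not_true, not_false_iff, if_true, if_false]
    rw [T_of_mem hφ hv0, add_self_fun]
    by_cases hv01 : v ∈ L01
    · simp only [hv01, not_true, if_false, T_zero_fun, add_zero]
    · simp only [hv01, not_false_iff, if_true]
      rw [T_of_mem hφ hu0, add_self_fun]

/-- the two edge maps of a square commute -/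
theorem face {L00 L10 L01 L11 : Submodule F2 U} {u v : U} (h1 : Edge L00 L10 u)
    (h2 : Edge L01 L11 u) (h3 : Edge L00 L01 v) (h4 : Edge L10 L11 v) {φ : U → F2}
    (hφ : Inv L00 φ) :
    toggle L10 L11 v (toggle L00 L10 u φ) = toggle L01 L11 u (toggle L00 L01 v φ) := by
  by_cases hu : (u ∉ L10 ↔ u ∉ L11)
  · by_cases hv : (v ∉ L01 ↔ v ∉ L11)
    · rw [toggle_eq h4 (toggle_inv h1 hφ), toggle_eq h2 (toggle_inv h3 hφ), toggle_eq h1 hφ,
        toggle_eq h3 hφ]
      by_cases h5 : u ∉ L11 <;> by_cases h6 : v ∉ L11
      · simp only [h5, h6, hu.2 h5, hv.2 h6, not_false_iff, if_true]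
      · simp only [h5, h6, hu.2 h5, mt hv.1 h6, not_false_iff, if_true, if_false]
      · simp only [h5, h6, mt hu.1 h5, hv.2 h6, not_false_iff, if_true, if_false]
      · simp only [h5, h6, mt hu.1 h5, mt hv.1 h6, if_false]
        rw [T_add_fun, T_add_fun, T_comm]
        abel
    · exact (face_aux h3 h4 h1 h2 hφ hv).symm
  · exact face_aux h1 h2 h3 h4 hφ hu

/-! ### systems -/

/-- a cube of subspaces -/
structure Sys (U : Type*) [AddCommGroup U] [Module F2 U] (I : Type*) [DecidableEq I] where
  L : (I → Bool) → Submodule F2 U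
  u : I → U
  edge : ∀ s i, s i = true → Edge (L (Function.update s i false)) (L s) (u i)

variable {I : Type*} [DecidableEq I] [Fintype I]

/-- cochains: functions with values in all functions on `U` -/
abbrev Ch (U I : Type*) := (I → Bool) → U → F2

namespace Sys

variable (S : Sys U I)

/-- the chain condition -/
def IsCh (φ : Ch U I) : Prop := ∀ s, Inv (S.L s) (φ s)

/-- the differential -/
noncomputable def d (φ : Ch U I) : Ch U I := fun s =>
  ∑ i, if s i = true then
    toggle (S.L (Function.update s i false)) (S.L s) (S.u i) (φ (Function.update s i false)) else 0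

theorem isCh_add {φ ψ : Ch U I} (h : S.IsCh φ) (h' : S.IsCh ψ) : S.IsCh (φ + ψ) :=
  fun s => (h s).add (h' s)

theorem isCh_zero : S.IsCh 0 := fun s => Inv.zero _

theorem isCh_d {φ : Ch U I} (h : S.IsCh φ) : S.IsCh (S.d φ) := by
  intro s
  unfold d
  have : ∀ t : Finset I, Inv (S.L s) (∑ i ∈ t, if s i = true then
      toggle (S.L (Function.update s i false)) (S.L s) (S.u i) (φ (Function.update s i false))
      else 0) := by
    intro t
    induction t using Finset.induction_on with
    | empty => simpa using Inv.zero _
    | insert i t hi ih =>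
      rw [Finset.sum_insert hi]
      refine Inv.add ?_ ih
      split_ifs with h1
      · exact toggle_inv (S.edge s i h1) (h _)
      · exact Inv.zero _
  exact this _

theorem d_add (φ ψ : Ch U I) : S.d (φ + ψ) = S.d φ + S.d ψ := by
  funext s
  show _ = S.d φ s + S.d ψ s
  unfold d
  rw [← Finset.sum_add_distrib]
  refine Finset.sum_congr rfl (fun i _ => ?_)
  split_ifs
  · exact toggle_add _ _ _ _ _
  · simp

theorem d_zero : S.d 0 = 0 := by
  funext s
  unfold d
  refine Finset.sum_eq_zero (fun i _ => ?_)
  split_ifs
  · exact toggle_zero _ _ _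
  · rfl

/-- `d² = 0` -/
theorem d_d {φ : Ch U I} (h : S.IsCh φ) : S.d (S.d φ) = 0 := by
  funext s
  show S.d (S.d φ) s = 0
  have e : S.d (S.d φ) s = ∑ i, ∑ j, (if s i = true ∧ j ≠ i ∧ s j = true then
      toggle (S.L (Function.update s i false)) (S.L s) (S.u i)
        (toggle (S.L (Function.update (Function.update s i false) j false))
          (S.L (Function.update s i false)) (S.u j)
          (φ (Function.update (Function.update s i false) j false))) else 0) := by
    show (∑ i, if s i = true then toggle (S.L (Function.update s i false)) (S.L s) (S.u i)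
      (S.d φ (Function.update s i false)) else 0) = _
    refine Finset.sum_congr rfl (fun i _ => ?_)
    by_cases hi : s i = true
    · rw [if_pos hi]
      unfold d
      rw [toggle_sum]
      refine Finset.sum_congr rfl (fun j _ => ?_)
      by_cases hj : j = i
      · subst hj
        simp [toggle_zero]
      · rw [Function.update_of_ne hj]
        by_cases hj' : s j = true
        · simp [hi, hj, hj']
        · simp [hi, hj, hj', toggle_zero]
    · rw [if_neg hi]
      symm
      refine Finset.sum_eq_zero (fun j _ => ?_)
      rw [if_neg (fun h => hi h.1)]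
  rw [e]
  rw [← Finset.sum_product']
  refine Finset.sum_involution (fun p _ => (p.2, p.1)) ?_ ?_ ?_ ?_
  · rintro ⟨i, j⟩ _
    dsimp only
    by_cases hc : s i = true ∧ j ≠ i ∧ s j = true
    · obtain ⟨hi, hij, hj⟩ := hc
      rw [if_pos ⟨hi, hij, hj⟩, if_pos ⟨hj, hij.symm, hi⟩]
      have hcomm : Function.update (Function.update s i false) j false =
          Function.update (Function.update s j false) i false := by
        rw [Function.update_comm hij]
      have E1 : Edge (S.L (Function.update (Function.update s i false) j false))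
          (S.L (Function.update s i false)) (S.u j) :=
        S.edge _ _ (by rw [Function.update_of_ne hij]; exact hj)
      have E2 : Edge (S.L (Function.update (Function.update s i false) j false))
          (S.L (Function.update s j false)) (S.u i) := by
        rw [hcomm]
        exact S.edge _ _ (by rw [Function.update_of_ne hij.symm]; exact hi)
      have E3 := S.edge s i hi
      have E4 := S.edge s j hj
      rw [face E1 E4 E2 E3 (h _), hcomm]
      exact add_self_fun _
    · rw [if_neg hc, if_neg (fun h => hc ⟨h.2.2, h.2.1.symm, h.1⟩), add_zero]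
  · rintro ⟨i, j⟩ _ hne
    dsimp only
    intro heq
    apply hne
    have : j = i := congrArg Prod.fst heq
    rw [if_neg (fun h => h.2.1 this)]
  · rintro ⟨i, j⟩ _; simp
  · rintro ⟨i, j⟩ _; rfl

end Sys

end Pool.H78.Kh
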