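import Mathlib

/-!
# Traces of functions along cosets (over `F_2`)

`U` is a finite `F_2`-vector space, chain groups are spaces of functions `U → F_2` invariant under a
subspace.  `tr L W φ v` is the sum of `φ` over the cosets of `L` in `v + W`.
-/

namespace Pool.H78.Kh

open scoped Classical

set_option linter.unusedSectionVars false
set_option linter.unusedVariables false

abbrev F2 := ZMod 2

variable {U : Type*} [AddCommGroup U] [Module F2 U] [Finite U]

/-- `φ` is invariant under translation by `L` -/
def Inv (L : Submodule F2 U) (φ : U → F2) : Prop := ∀ l ∈ L, ∀ v, φ (v + l) = φ v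

theorem Inv.congr {L : Submodule F2 U} {φ : U → F2} (h : Inv L φ) {v w : U} (hvw : v - w ∈ L) :
    φ v = φ w := by
  have := h _ hvw w
  rwa [add_sub_cancel] at this

theorem Inv.mono {L M : Submodule F2 U} {φ : U → F2} (h : Inv M φ) (hLM : L ≤ M) : Inv L φ :=
  fun l hl v => h l (hLM hl) v

theorem Inv.add {L : Submodule F2 U} {φ ψ : U → F2} (h : Inv L φ) (h' : Inv L ψ) :
    Inv L (φ + ψ) := fun l hl v => by simp [h l hl v, h' l hl v]

theorem Inv.zero (L : Submodule F2 U) : Inv L (0 : U → F2) := fun _ _ _ => rfl

/-- translation by `u` -/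
def T (u : U) (φ : U → F2) : U → F2 := fun v => φ (v + u)

theorem Inv.T {L : Submodule F2 U} {φ : U → F2} (h : Inv L φ) (u : U) : Inv L (T u φ) :=
  fun l hl v => by
    show φ (v + l + u) = φ (v + u)
    rw [add_right_comm]
    exact h l hl _

noncomputable instance (L : Submodule F2 U) : Fintype (U ⧸ L) := by
  haveI : Finite (U ⧸ L) := Quotient.finite _
  exact Fintype.ofFinite _

/-- the sum of `φ` over the cosets of `L` in `v + W` -/
noncomputable def tr (L W : Submodule F2 U) (φ : U → F2) (v : U) : F2 :=
  ∑ b : U ⧸ L, if b.out - v ∈ W then φ b.out else 0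

theorem tr_add (L W : Submodule F2 U) (φ ψ : U → F2) : tr L W (φ + ψ) = tr L W φ + tr L W ψ := by
  funext v
  simp only [tr, Pi.add_apply, ← Finset.sum_add_distrib]
  refine Finset.sum_congr rfl (fun b _ => ?_)
  split_ifs <;> simp

@[simp] theorem tr_zero (L W : Submodule F2 U) : tr L W (0 : U → F2) = 0 := by
  funext v
  simp [tr]

theorem tr_inv (L W : Submodule F2 U) (φ : U → F2) : Inv W (tr L W φ) := by
  intro w hw v
  simp only [tr]
  refine Finset.sum_congr rfl (fun b _ => ?_)
  have : (b.out - (v + w) ∈ W) ↔ (b.out - v ∈ W) := by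
    have e : b.out - (v + w) = (b.out - v) - w := by abel
    rw [e]
    exact ⟨fun h => by simpa using W.add_mem h hw, fun h => W.sub_mem h hw⟩
  simp only [this]

theorem out_sub_mem (L : Submodule F2 U) (v : U) :
    (Submodule.Quotient.mk (p := L) v).out - v ∈ L := by
  rw [← Submodule.Quotient.eq]
  exact Quotient.out_eq _

/-- transitivity of traces -/
theorem tr_trans {L M W : Submodule F2 U} (hLM : L ≤ M) (hMW : M ≤ W) {φ : U → F2} :
    tr M W (tr L M φ) = tr L W φ := by
  funext v
  simp only [tr]
  have step : ∀ b' : U ⧸ M,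
      (if b'.out - v ∈ W then ∑ b : U ⧸ L, (if b.out - b'.out ∈ M then φ b.out else 0) else 0) =
        ∑ b : U ⧸ L, (if b' = Submodule.Quotient.mk (b.out : U) then
          (if b.out - v ∈ W then φ b.out else 0) else 0) := by
    intro b'
    have key : ∀ b : U ⧸ L, (b.out - b'.out ∈ M) ↔ b' = Submodule.Quotient.mk (b.out : U) := by
      intro b
      rw [← Submodule.Quotient.eq]
      constructor
      · intro h; rw [h]; exact (Quotient.out_eq _).symm
      · intro h; rw [← h]; exact (Quotient.out_eq _).symm
    split_ifs with h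
    · refine Finset.sum_congr rfl (fun b _ => ?_)
      simp only [key]
      split_ifs with h1 h2
      · rfl
      · exfalso
        apply h2
        have := (key b).2 h1
        have e : b.out - v = (b.out - b'.out) + (b'.out - v) := by abel
        rw [e]
        exact W.add_mem (hMW this) h
      · rfl
    · symm
      apply Finset.sum_eq_zero
      intro b _
      split_ifs with h1 h2
      · exfalso
        apply h
        have := (key b).2 h1
        have e : b'.out - v = (b.out - v) - (b.out - b'.out) := by abel
        rw [e]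
        exact W.sub_mem h2 (hMW this)
      · rfl
      · rfl
  rw [Finset.sum_congr rfl (fun b' _ => step b'), Finset.sum_comm]
  refine Finset.sum_congr rfl (fun b _ => ?_)
  rw [Finset.sum_ite_eq']
  simp

/-- the trace along `L ≤ L` is the identity on invariant functions -/
theorem tr_self {L : Submodule F2 U} {φ : U → F2} (h : Inv L φ) : tr L L φ = φ := by
  funext v
  simp only [tr]
  rw [Finset.sum_eq_single (Submodule.Quotient.mk (p := L) v)]
  · rw [if_pos (out_sub_mem L v)]
    exact h.congr (out_sub_mem L v)
  · intro b _ hb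
    rw [if_neg]
    intro h'
    apply hb
    rw [← (Submodule.Quotient.eq L).2 h']
    exact (Quotient.out_eq _).symm
  · intro h'; exact absurd (Finset.mem_univ _) h'

theorem mem_sup_span {L : Submodule F2 U} {u v : U} (h : v ∈ L ⊔ Submodule.span F2 {u}) :
    v ∈ L ∨ v - u ∈ L := by
  obtain ⟨l, hl, w, hw, rfl⟩ := Submodule.mem_sup.1 h
  obtain ⟨c, rfl⟩ := Submodule.mem_span_singleton.1 hw
  have hc : ∀ c : F2, c = 0 ∨ c = 1 := by decide
  rcases hc c with rfl | rfl
  · left; simpa using hl
  · right; simpa using hl

theorem mk_out {L : Submodule F2 U} (b : U ⧸ L) :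
    (Submodule.Quotient.mk (b.out : U) : U ⧸ L) = b := Quotient.out_eq _

/-- adding one vector: the trace is `1 + T_u` -/
theorem tr_insert {L : Submodule F2 U} {u : U} (hu : u ∉ L) {φ : U → F2} (h : Inv L φ) :
    tr L (L ⊔ Submodule.span F2 {u}) φ = φ + T u φ := by
  funext v
  simp only [tr]
  have hne : (Submodule.Quotient.mk (p := L) v) ≠ Submodule.Quotient.mk (p := L) (v + u) := by
    intro h'
    rw [Submodule.Quotient.eq] at h'
    apply hu
    have := L.neg_mem h'
    simpa using this
  rw [← Finset.sum_subset (Finset.subset_univ {Submodule.Quotient.mk (p := L) v,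
    Submodule.Quotient.mk (p := L) (v + u)})]
  · rw [Finset.sum_pair hne, if_pos, if_pos]
    · show φ _ + φ _ = φ v + φ (v + u)
      rw [h.congr (out_sub_mem L v), h.congr (out_sub_mem L (v + u))]
    · have e : (Submodule.Quotient.mk (p := L) (v + u)).out - v =
        ((Submodule.Quotient.mk (p := L) (v + u)).out - (v + u)) + u := by abel
      rw [e]
      exact Submodule.add_mem _ (Submodule.mem_sup_left (out_sub_mem L _))
        (Submodule.mem_sup_right (Submodule.mem_span_singleton_self u))
    · exact Submodule.mem_sup_left (out_sub_mem L v)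
  · intro b _ hb
    rw [if_neg]
    intro h'
    apply hb
    rcases mem_sup_span h' with h1 | h1
    · rw [← mk_out b, (Submodule.Quotient.eq L).2 h1]
      simp
    · have h2 : b.out - (v + u) ∈ L := by
        have e : b.out - (v + u) = b.out - v - u := by abel
        rwa [e]
      rw [← mk_out b, (Submodule.Quotient.eq L).2 h2]
      simp

theorem add_T_eq_zero {u : U} {φ : U → F2} {L : Submodule F2 U} (hu : u ∈ L) (h : Inv L φ) :
    φ + T u φ = 0 := by
  funext v
  show φ v + φ (v + u) = 0
  rw [h u hu v]
  exact CharTwo.add_self_eq_zero _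

/-- the trace of a function invariant under one more direction vanishes -/
theorem tr_eq_zero {L W : Submodule F2 U} {u : U} (hLW : L ≤ W) (hu : u ∉ L) (huW : u ∈ W)
    {φ : U → F2} (h : Inv (L ⊔ Submodule.span F2 {u}) φ) : tr L W φ = 0 := by
  have h1 : L ⊔ Submodule.span F2 {u} ≤ W :=
    sup_le hLW ((Submodule.span_singleton_le_iff_mem _ _).2 huW)
  rw [← tr_trans (le_sup_left (a := L) (b := Submodule.span F2 {u})) h1,
    tr_insert hu (h.mono le_sup_left),
    add_T_eq_zero (Submodule.mem_sup_right (Submodule.mem_span_singleton_self u)) h, tr_zero]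

/-- passing from `L` to `L + u` inside `W` -/
theorem tr_add_T {L W : Submodule F2 U} {u : U} (hLW : L ≤ W) (hu : u ∉ L) (huW : u ∈ W)
    {φ : U → F2} (h : Inv L φ) :
    tr (L ⊔ Submodule.span F2 {u}) W (φ + T u φ) = tr L W φ := by
  have h1 : L ⊔ Submodule.span F2 {u} ≤ W :=
    sup_le hLW ((Submodule.span_singleton_le_iff_mem _ _).2 huW)
  rw [← tr_insert hu h, tr_trans le_sup_left h1]

/-- adding `u` outside of `W` to both -/
theorem tr_add_T_out {L W : Submodule F2 U} {u : U} (hLW : L ≤ W) (hu : u ∉ W)
    {φ : U → F2} (h : Inv L φ) :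
    tr (L ⊔ Submodule.span F2 {u}) (W ⊔ Submodule.span F2 {u}) (φ + T u φ) =
      tr L W φ + T u (tr L W φ) := by
  have huL : u ∉ L := fun h' => hu (hLW h')
  rw [← tr_insert huL h, tr_trans le_sup_left (sup_le_sup_right hLW _),
    ← tr_insert hu (tr_inv L W φ), tr_trans hLW le_sup_left]

/-- removing `u` (not in `W'`) from both -/
theorem tr_remove {L' W' : Submodule F2 U} {u : U} (hLW : L' ≤ W') (hu : u ∉ W')
    {φ : U → F2} (h : Inv (L' ⊔ Submodule.span F2 {u}) φ) :
    tr L' W' φ = tr (L' ⊔ Submodule.span F2 {u}) (W' ⊔ Submodule.span F2 {u}) φ := by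
  have huL : u ∉ L' := fun h' => hu (hLW h')
  funext v
  simp only [tr]
  -- the map `U/L' → U/(L'+u)` restricted to the cosets meeting `v + W'` is injective
  have hle : L' ≤ L' ⊔ Submodule.span F2 {u} := le_sup_left
  rw [← Finset.sum_filter, ← Finset.sum_filter]
  refine Finset.sum_bij' (i := fun b _ => Submodule.Quotient.mk (b.out : U))
    (j := fun b _ => if b.out - v ∈ W' then Submodule.Quotient.mk (b.out : U)
      else Submodule.Quotient.mk (b.out + u : U)) ?_ ?_ ?_ ?_ ?_
  · intro b hb
    simp only [Finset.mem_filter, Finset.mem_univ, true_and] at hb ⊢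
    have e := out_sub_mem (L' ⊔ Submodule.span F2 {u}) b.out
    have e2 : (Submodule.Quotient.mk (p := L' ⊔ Submodule.span F2 {u}) (b.out : U)).out - v =
      ((Submodule.Quotient.mk (p := L' ⊔ Submodule.span F2 {u}) (b.out : U)).out - b.out) +
        (b.out - v) := by abel
    rw [e2]
    exact Submodule.add_mem _ (sup_le_sup_right hLW _ e) (Submodule.mem_sup_left hb)
  · intro b hb
    simp only [Finset.mem_filter, Finset.mem_univ, true_and] at hb ⊢
    split_ifs with h1
    · have e2 : (Submodule.Quotient.mk (p := L') (b.out : U)).out - v =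
        ((Submodule.Quotient.mk (p := L') (b.out : U)).out - b.out) + (b.out - v) := by abel
      rw [e2]
      exact W'.add_mem (hLW (out_sub_mem L' _)) h1
    · have h2 : b.out + u - v ∈ W' := by
        rcases mem_sup_span hb with h3 | h3
        · exact absurd h3 h1
        · have e : b.out + u - v = b.out - v - u + (u + u) := by abel
          rw [e, show u + u = (0 : U) from by
            rw [← two_smul F2 u]; simp [show (2 : F2) = 0 from rfl], add_zero]
          exact h3
      have e2 : (Submodule.Quotient.mk (p := L') (b.out + u : U)).out - v =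
        ((Submodule.Quotient.mk (p := L') (b.out + u : U)).out - (b.out + u)) +
          (b.out + u - v) := by abel
      rw [e2]
      exact W'.add_mem (hLW (out_sub_mem L' _)) h2
  · intro b hb
    simp only [Finset.mem_filter, Finset.mem_univ, true_and] at hb
    set c : U := (Submodule.Quotient.mk (p := L' ⊔ Submodule.span F2 {u}) (b.out : U)).out with hc
    have e := out_sub_mem (L' ⊔ Submodule.span F2 {u}) b.out
    rw [← hc] at e
    have huu : u + u = (0 : U) := by
      rw [← two_smul F2 u]; simp [show (2 : F2) = 0 from rfl]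
    rcases mem_sup_span e with h1 | h1
    · have h2 : c - v ∈ W' := by
        have : c - v = (c - b.out) + (b.out - v) := by abel
        rw [this]; exact W'.add_mem (hLW h1) hb
      rw [if_pos h2, (Submodule.Quotient.eq L').2 h1]
      exact Quotient.out_eq _
    · have h2 : ¬ (c - v ∈ W') := by
        intro h3
        apply hu
        have : u = (c - v) - (b.out - v) - (c - b.out - u) := by abel
        rw [this]
        exact W'.sub_mem (W'.sub_mem h3 hb) (hLW h1)
      rw [if_neg h2]
      have h3 : c + u - b.out ∈ L' := by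
        have : c + u - b.out = c - b.out - u + (u + u) := by abel
        rw [this, huu, add_zero]; exact h1
      rw [(Submodule.Quotient.eq L').2 h3]
      exact Quotient.out_eq _
  · intro b hb
    have huM : u ∈ L' ⊔ Submodule.span F2 {u} :=
      Submodule.mem_sup_right (Submodule.mem_span_singleton_self u)
    have hb' : Submodule.Quotient.mk (p := L' ⊔ Submodule.span F2 {u}) b.out = b :=
      Quotient.out_eq _
    split_ifs with h1
    · conv_rhs => rw [← hb']
      rw [Submodule.Quotient.eq]
      exact hle (out_sub_mem L' _)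
    · conv_rhs => rw [← hb']
      rw [Submodule.Quotient.eq]
      have e2 : (Submodule.Quotient.mk (p := L') (b.out + u : U)).out - b.out =
        ((Submodule.Quotient.mk (p := L') (b.out + u : U)).out - (b.out + u)) + u := by abel
      rw [e2]
      exact Submodule.add_mem _ (hle (out_sub_mem L' _)) huM
  · intro b hb
    exact (h.congr (out_sub_mem _ _)).symm

end Pool.H78.Kh
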